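import Pool.Agent.MP_e258b5_gt.Z.Defs

/-! Density ultrafilters and the rank trick for nested partitions. -/

open Set Filter Topology

namespace Pool.Agent.MP_e258b5_gt.Z

open Classical in
/-- An ultrafilter all of whose members have density at least `1 / (j + 1)` somewhere. -/
theorem exists_dens (t : ℕ → ℕ) (ht : ∀ j, 0 < t j) : ∃ p : Ultrafilter ℕ,
    (p : Filter ℕ) ≤ cofinite ∧ ∀ B ∈ p, ∃ j,
      t j ≤ ((Finset.range ((j + 1) * t j)).filter (· ∈ B)).card := by
  let d : Set ℕ → ℕ → ℕ := fun B j => ((Finset.range ((j + 1) * t j)).filter (· ∈ B)).card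
  let F : Filter ℕ := Filter.comk (fun B => ∀ c : ℕ, ∀ᶠ j in atTop, c * d B j < (j + 1) * t j)
    (fun c => Eventually.of_forall fun j => by simpa [d] using ht j)
    (fun B hB A hA c => (hB c).mono fun j hj => lt_of_le_of_lt (Nat.mul_le_mul_left _
      (Finset.card_le_card (Finset.monotone_filter_right _ fun n _ hn => hA hn))) hj)
    (fun A hA B hB c => by
      filter_upwards [hA (2 * c), hB (2 * c)] with j h1 h2
      have h3 : d (A ∪ B) j ≤ d A j + d B j := by
        refine le_trans (Finset.card_le_card fun n hn => ?_) (Finset.card_union_le _ _)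
        simp only [Finset.mem_filter, Finset.mem_union, mem_union] at hn ⊢
        tauto
      nlinarith)
  have hF : ∀ B, Bᶜ ∈ F ↔ ∀ c : ℕ, ∀ᶠ j in atTop, c * d B j < (j + 1) * t j := fun B =>
    Filter.compl_mem_comk
  have : F.NeBot := ⟨fun h => by
    have h1 : (univ : Set ℕ)ᶜ ∈ F := by simp [h]
    obtain ⟨j, hj⟩ := ((hF _).1 h1 1).exists
    simp [d] at hj⟩
  refine ⟨Ultrafilter.of F, (Ultrafilter.of_le F).trans fun B hB => ?_, fun B hB => ?_⟩
  · rw [← compl_compl B, hF]
    intro c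
    filter_upwards [eventually_ge_atTop (c * (Set.Finite.toFinset hB).card)] with j hj
    have h1 : d Bᶜ j ≤ (Set.Finite.toFinset hB).card := Finset.card_le_card fun n hn => by
      simp only [Finset.mem_filter] at hn
      simpa using hn.2
    nlinarith [ht j, Nat.mul_le_mul_left c h1]
  · by_contra hc
    push Not at hc
    refine Ultrafilter.compl_notMem_iff.2 hB (Ultrafilter.of_le F ((hF B).2 fun c => ?_))
    filter_upwards [eventually_ge_atTop c] with j hj
    have h1 : d B j < t j := hc j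
    nlinarith

theorem exists_rank {C : Finset ℕ} {κ : ℕ → ℕ} (h : InjOn κ C) {r : ℕ} (hr : r < C.card) :
    ∃ n ∈ C, (C.filter fun m => κ m < κ n).card = r := by
  have key : ∀ a ∈ C, ∀ b, κ a < κ b →
      (C.filter fun m => κ m < κ a).card < (C.filter fun m => κ m < κ b).card := fun a ha b hab =>
    Finset.card_lt_card ⟨Finset.monotone_filter_right _ fun m _ hm => hm.trans hab, fun hs =>
      lt_irrefl _ (Finset.mem_filter.1 (hs (Finset.mem_filter.2 ⟨ha, hab⟩))).2⟩
  refine Finset.surjOn_of_injOn_of_card_le (s := C) (t := Finset.range C.card)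
    (fun n => (C.filter fun m => κ m < κ n).card) (fun n hn => ?_) (fun a ha b hb e => ?_)
    (by simp) (by simpa using hr)
  · rw [Finset.mem_coe, Finset.mem_range]
    exact Finset.card_lt_card ⟨Finset.filter_subset _ _, fun hs =>
      lt_irrefl _ (Finset.mem_filter.1 (hs hn)).2⟩
  · rcases lt_trichotomy (κ a) (κ b) with h1 | h1 | h1
    exacts [absurd e (key a ha b h1).ne, h ha hb h1, absurd e (key b hb a h1).ne']

/-- From a multiple cover by pieces of nested partitions to a cheap cover. -/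
theorem cheap {Z γ : Type} (π : ℕ → Z → γ)
    (nest : ∀ i l, i ≤ l → ∀ x y, π l x = π l y → π i x = π i y) (c : ℕ → ℝ)
    (hc : ∀ i, 0 ≤ c i) (lv : ℕ → ℕ) (S : ℕ → Finset γ) {N t : ℕ} (ht : 0 < t) {b : ℝ}
    (hb : ∑ n ∈ Finset.range N, (S n).card * c (lv n) ≤ t * b) :
    ∃ T : ℕ → Finset γ, (∀ i, (T i).card * c i ≤ b) ∧ (∀ i, ∀ s ∈ T i, ∃ n, lv n = i ∧ s ∈ S n) ∧
      ∀ z, t ≤ {n | n < N ∧ π (lv n) z ∈ S n}.ncard → ∃ i, π i z ∈ T i := by
  classical
  let rk : (Σ _ : ℕ, γ) → ℕ := fun a => ((Finset.range N).filter fun m =>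
    lv m * N + m < lv a.1 * N + a.1 ∧ ∀ z, π (lv a.1) z = a.2 → π (lv m) z ∈ S m).card
  obtain ⟨r, hr, h1⟩ := Finset.exists_sum_fiber_le_of_sum_fiber_nonneg_of_sum_le_nsmul
    (s := (Finset.range N).sigma S) (t := Finset.range t) (f := rk) (w := fun a => c (lv a.1))
    (b := b) (fun _ _ => Finset.sum_nonneg fun _ _ => hc _) (by simpa using ht.ne')
    (by simpa [Finset.sum_sigma] using hb)
  refine ⟨fun i => ((((Finset.range N).sigma S).filter fun a => rk a = r).filter
    fun a => lv a.1 = i).image fun a => a.2, fun i => ?_, fun i s hs => ?_, fun z hz => ?_⟩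
  · refine le_trans ?_ ((Finset.sum_le_sum_of_subset_of_nonneg (Finset.filter_subset
      (fun a => lv a.1 = i) _) fun _ _ _ => hc _).trans h1)
    rw [Finset.sum_congr rfl fun a ha => congrArg c (Finset.mem_filter.1 ha).2, Finset.sum_const,
      nsmul_eq_mul]
    exact mul_le_mul_of_nonneg_right (Nat.cast_le.2 Finset.card_image_le) (hc i)
  · obtain ⟨a, ha, rfl⟩ := Finset.mem_image.1 hs
    simp only [Finset.mem_filter, Finset.mem_sigma] at ha
    exact ⟨a.1, ha.2, ha.1.1.2⟩
  have e1 : {n | n < N ∧ π (lv n) z ∈ S n} =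
      ((Finset.range N).filter fun n => π (lv n) z ∈ S n : Finset ℕ) := by
    ext n
    simp
  rw [e1, ncard_coe_finset] at hz
  obtain ⟨n, hn, h2⟩ := exists_rank (κ := fun m => lv m * N + m) (fun a ha b hb e => by
    have h3 := congrArg (· % N) e
    simp only [Finset.coe_filter, Finset.mem_range, mem_ofPred_eq] at ha hb
    simpa [Nat.mod_eq_of_lt ha.1, Nat.mod_eq_of_lt hb.1] using h3)
    ((Finset.mem_range.1 hr).trans_le hz)
  obtain ⟨n1, n2⟩ := Finset.mem_filter.1 hn
  refine ⟨lv n, Finset.mem_image.2 ⟨⟨n, π (lv n) z⟩, Finset.mem_filter.2 ⟨Finset.mem_filter.2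
    ⟨Finset.mem_sigma.2 ⟨n1, n2⟩, ?_⟩, rfl⟩, rfl⟩⟩
  rw [← h2, Finset.filter_filter]
  refine congrArg Finset.card (Finset.filter_congr fun m hm => ⟨fun h => ⟨h.2 z rfl, h.1⟩,
    fun h => ⟨h.2, fun y hy => ?_⟩⟩)
  have h3 : lv m ≤ lv n := by
    by_contra h4
    have := Finset.mem_range.1 n1
    nlinarith [h.2, not_le.1 h4]
  rw [nest _ _ h3 y z hy]
  exact h.1

variable {X : Type} [TopologicalSpace X]

theorem core (h : AllGammaP X) (k : ℕ) {γ : Type} (A : ℕ → Finset γ) (π : ℕ → X → γ)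
    (nest : ∀ i l, i ≤ l → ∀ x y, π l x = π l y → π i x = π i y)
    (loc : ∀ F : Set X, F.Finite → ∃ᶠ i in atTop, ∀ x ∈ F,
      ∃ S ⊆ A i, S.card ≤ 2 ∧ ∀ᶠ y in 𝓝 x, π i y ∈ S) :
    ∃ T : ℕ → Finset (Fin k → γ), (∀ i, (T i).card ≤ (2 ^ i) ^ (k + 1) * (2 ^ i) ^ (k + 1)) ∧
      (∀ i, ∀ s ∈ T i, ∀ l, s l ∈ A i) ∧ ∀ z : Fin k → X, ∃ i, (fun l => π i (z l)) ∈ T i := by
  classical
  let U : Set (Set X) := {u | ∃ i, ∃ S ⊆ A i, S.card ≤ 2 ^ i ∧ u = interior {x | π i x ∈ S}}
  have pw : ∀ (i : ℕ) (S : Finset γ), S.card ≤ 2 ^ i →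
      (Fintype.piFinset fun _ : Fin k => S).card ≤ (2 ^ i) ^ k := fun i S hS => by
    rw [Fintype.card_piFinset, Finset.prod_const, Finset.card_univ, Fintype.card_fin]
    exact Nat.pow_le_pow_left hS k
  by_cases hU : univ ∈ U
  · obtain ⟨i, S, h1, h2, h3⟩ := hU
    refine ⟨fun l => if l = i then Fintype.piFinset fun _ => S else ∅, fun l => ?_,
      fun l s hs a => ?_, fun z => ⟨i, ?_⟩⟩
    · beta_reduce
      split_ifs with e
      · subst e
        exact (pw l S h2).trans ((Nat.pow_le_pow_right (by positivity) k.le_succ).trans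
          (Nat.le_mul_self _))
      · simp
    · beta_reduce at hs
      split_ifs at hs with e
      · exact e ▸ h1 (Fintype.mem_piFinset.1 hs a)
      · simp at hs
    · beta_reduce
      rw [if_pos rfl, Fintype.mem_piFinset]
      exact fun l => interior_subset (s := {x | π i x ∈ S}) (h3.le (mem_univ (z l)))
  let R : ℕ → Finset (Σ _ : ℕ, Finset γ) := fun K => (Finset.range K).sigma fun i => (A i).powerset
  obtain ⟨p, hp, hd⟩ := exists_dens (fun j => 2 * (j + 1) * ((R (2 * j + 1)).card + 1))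
    fun j => by positivity
  obtain ⟨e, e1, e2, e3⟩ := h p hp U ⟨by rintro _ ⟨i, S, -, -, rfl⟩; exact isOpen_interior, hU,
    fun F hF => by
      obtain ⟨i, h1, h2⟩ := ((loc F hF).and_eventually
        (eventually_ge_atTop (hF.toFinset.card * 2))).exists
      choose! S s1 s2 s3 using h1
      refine ⟨_, ⟨i, hF.toFinset.biUnion S, Finset.biUnion_subset.2 fun x hx =>
        s1 x (by simpa using hx), ?_, rfl⟩, fun x hx => mem_interior_iff_mem_nhds.2 ?_⟩
      · exact (Finset.card_biUnion_le_card_mul _ _ _ fun x hx => s2 x (by simpa using hx)).trans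
          (h2.trans Nat.lt_two_pow_self.le)
      · exact (s3 x hx).mono fun y hy => Finset.mem_biUnion.2 ⟨x, by simpa using hx, hy⟩⟩
  choose lv S s1 s2 s3 using e2
  have few : ∀ N K, ((Finset.range N).filter fun n => lv n < K).card ≤ (R K).card := fun N K =>
    Finset.card_le_card_of_injOn (fun n => ⟨lv n, S n⟩) (fun n hn => by
      simpa [R] using ⟨(Finset.mem_filter.1 hn).2, s1 n⟩) fun a _ b _ hab => e1 (by
        obtain ⟨h1, h2⟩ := Sigma.mk.inj_iff.1 hab
        rw [s3, s3, h1, eq_of_heq h2])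
  have H := fun j : ℕ => cheap (Z := Fin k → X) (fun i z l => π i (z l))
    (fun i l hil x y e => funext fun a => nest i l hil _ _ (congrFun e a))
    (fun i => 1 / (2 ^ i) ^ (k + 1)) (fun i => by positivity) lv
    (fun n => Fintype.piFinset fun _ => S n)
    (N := (j + 1) * (2 * (j + 1) * ((R (2 * j + 1)).card + 1)))
    (t := 2 * (j + 1) * ((R (2 * j + 1)).card + 1)) (by positivity) (b := 1 / (j + 1)) (by
      have h1 : ∀ n, ((Fintype.piFinset fun _ : Fin k => S n).card : ℝ) *
          (1 / (2 ^ lv n) ^ (k + 1)) ≤ (if lv n < 2 * j + 1 then 1 else 0) + 1 / 2 ^ (2 * j + 1) := by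
        intro n
        have h2 : ((Fintype.piFinset fun _ : Fin k => S n).card : ℝ) ≤ (2 ^ lv n) ^ k := by
          exact_mod_cast pw _ _ (s2 n)
        refine (mul_le_mul_of_nonneg_right h2 (by positivity)).trans ?_
        rw [show ((2 : ℝ) ^ lv n) ^ k * (1 / (2 ^ lv n) ^ (k + 1)) = 1 / 2 ^ lv n by
          rw [pow_succ]; field_simp]
        split_ifs with h3
        · refine le_add_of_le_of_nonneg ?_ (by positivity)
          rw [div_le_one (by positivity)]
          exact one_le_pow₀ one_le_two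
        · rw [zero_add]
          exact one_div_le_one_div_of_le (by positivity) (pow_le_pow_right₀ one_le_two (by omega))
      refine (Finset.sum_le_sum fun n _ => h1 n).trans ?_
      rw [Finset.sum_add_distrib, Finset.sum_boole, Finset.sum_const, Finset.card_range,
        nsmul_eq_mul]
      have h2 : (_ : ℝ) ≤ _ := Nat.cast_le.2 (few ((j + 1) * (2 * (j + 1) *
        ((R (2 * j + 1)).card + 1))) (2 * j + 1))
      have h3 : ((j : ℝ) + 1) ≤ 2 ^ j := by exact_mod_cast Nat.lt_two_pow_self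
      have h4 : (1 : ℝ) / 2 ^ (2 * j + 1) ≤ 1 / (2 * (j + 1) ^ 2) := by
        refine one_div_le_one_div_of_le (by positivity) ?_
        rw [pow_succ (2 : ℝ) (2 * j), mul_comm 2 j, pow_mul]
        nlinarith [pow_le_pow_left₀ (by positivity) h3 2]
      refine (add_le_add h2 (mul_le_mul_of_nonneg_left h4 (by positivity))).trans ?_
      push_cast
      field_simp
      linarith)
  choose T t1 t2 t3 using H
  have t4 : ∀ j i, ((T j i).card : ℝ) * (j + 1) ≤ (2 ^ i) ^ (k + 1) := fun j i => by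
    have := t1 j i
    rwa [mul_one_div, div_le_div_iff₀ (by positivity) (by positivity), one_mul] at this
  have t5 : ∀ j i, (T j i).card * (j + 1) ≤ (2 ^ i) ^ (k + 1) := fun j i => by
    exact_mod_cast t4 j i
  refine ⟨fun i => (Finset.range ((2 ^ i) ^ (k + 1))).biUnion fun j => T j i, fun i => ?_,
    fun i s hs l => ?_, fun z => ?_⟩
  · refine (Finset.card_biUnion_le_card_mul _ _ _ fun j _ =>
      (Nat.le_mul_of_pos_right _ j.succ_pos).trans (t5 j i)).trans (by rw [Finset.card_range])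
  · obtain ⟨j, -, hj⟩ := Finset.mem_biUnion.1 hs
    obtain ⟨n, rfl, hn⟩ := t2 j i s hj
    exact s1 n (Fintype.mem_piFinset.1 hn l)
  obtain ⟨j, hj⟩ := hd {n | ∀ l, π (lv n) (z l) ∈ S n} (by
    filter_upwards [(eventually_all (l := (p : Filter ℕ))).2 fun l => e3 (z l)] with n hn l
    exact interior_subset (s := {x | π (lv n) x ∈ S n}) (s3 n ▸ hn l))
  obtain ⟨i, hi⟩ := t3 j z (hj.trans_eq (by
    rw [← ncard_coe_finset]
    congr 1
    ext n
    simp))
  refine ⟨i, Finset.mem_biUnion.2 ⟨j, Finset.mem_range.2 ?_, hi⟩⟩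
  have := t5 j i
  nlinarith [Finset.card_pos.2 ⟨_, hi⟩]

end Pool.Agent.MP_e258b5_gt.Z
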