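import Mathlib

/-! Omega-covers, gamma-covers along ultrafilters, strong measure zero. -/

open Set Filter

namespace Pool.Agent.MP_e258b5_gt.Z

/-- Open omega-covers. -/
def OmegaCover {X : Type} [TopologicalSpace X] (U : Set (Set X)) : Prop :=
  (∀ u ∈ U, IsOpen u) ∧ univ ∉ U ∧ ∀ F : Set X, F.Finite → ∃ u ∈ U, F ⊆ u

/-- For every nonprincipal ultrafilter `p`, every open omega-cover contains an injective sequence
`e` with `{n | x ∈ e n} ∈ p` for all `x`. -/
def AllGammaP (X : Type) [TopologicalSpace X] : Prop :=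
  ∀ p : Ultrafilter ℕ, (p : Filter ℕ) ≤ cofinite → ∀ U : Set (Set X), OmegaCover U →
    ∃ e : ℕ → Set X, Function.Injective e ∧ (∀ n, e n ∈ U) ∧ ∀ x, {n | x ∈ e n} ∈ p

/-- Every open omega-cover contains an infinite family that holds each point in all but finitely
many members. -/
def Gamma (X : Type) [TopologicalSpace X] : Prop :=
  ∀ U : Set (Set X), OmegaCover U → ∃ V ⊆ U, V.Infinite ∧ ∀ x, {u ∈ V | x ∉ u}.Finite

/-- Strong measure zero. -/
def SMZ {Y : Type} [PseudoMetricSpace Y] (A : Set Y) : Prop :=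
  ∀ ε : ℕ → ℝ, (∀ n, 0 < ε n) →
    ∃ B : ℕ → Set Y, (∀ n, ∀ a ∈ B n, ∀ b ∈ B n, dist a b ≤ ε n) ∧ A ⊆ ⋃ n, B n

/-- Scheepers-bounded sets: for all radii `δ i` there are finite sets `N i` such that each finite
subset of `A` lies in the `δ i`-neighbourhood of `N i` for some `i`. -/
def SchB {Y : Type} [PseudoMetricSpace Y] (A : Set Y) : Prop :=
  ∀ δ : ℕ → ℝ, (∀ i, 0 < δ i) → ∃ N : ℕ → Set Y, (∀ i, (N i).Finite) ∧
    ∀ F ⊆ A, F.Finite → ∃ i, F ⊆ ⋃ y ∈ N i, Metric.ball y (δ i)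

end Pool.Agent.MP_e258b5_gt.Z
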