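import Pool.Agent.MP_e258b5_gt.Z.Smz

/-! Counterexamples map onto counterexamples in the line. -/

open Set Filter Topology

namespace Pool.Agent.MP_e258b5_gt.Z

variable {X : Type} [TopologicalSpace X]

omit [TopologicalSpace X] in
theorem gamma_sub {U : Set (Set X)} (hU : univ ∉ U) {ι : Type} {V : Set ι} (hV : V.Infinite)
    (u : ι → Set X) (hu : ∀ w ∈ V, u w ∈ U) (hx : ∀ x, {w ∈ V | x ∉ u w}.Finite) :
    ∃ V' ⊆ U, V'.Infinite ∧ ∀ x, {v ∈ V' | x ∉ v}.Finite := by
  refine ⟨u '' V, image_subset_iff.2 hu, fun hf => hV (hf.of_finite_fibers u ?_), fun x =>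
    ((hx x).image u).subset ?_⟩
  · rintro _ ⟨w, hw, rfl⟩
    obtain ⟨x, h1⟩ := (ne_univ_iff_exists_notMem _).1 fun e : u w = univ => hU (e ▸ hu w hw)
    exact (hx x).subset fun v hv => ⟨hv.1, by rwa [show u v = u w from hv.2]⟩
  · rintro _ ⟨⟨w, hw, rfl⟩, h1⟩
    exact ⟨w, ⟨hw, h1⟩, rfl⟩

theorem gamma_of_countable [Countable X] : Gamma X := fun U hU => by
  obtain ⟨g, hg⟩ := exists_injective_nat X
  choose u u1 u2 using fun i => hU.2.2 _ ((finite_le_nat i).preimage hg.injOn)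
  exact gamma_sub hU.2.1 infinite_univ u (fun i _ => u1 i) fun x =>
    (finite_lt_nat (g x)).subset fun i hi => show i < g x from not_le.1 fun h => hi.2 (u2 i h)

theorem AllGammaP.image (h : AllGammaP X) {Z : Type} [TopologicalSpace Z] {g : X → Z}
    (hg : Continuous g) (hs : Function.Surjective g) : AllGammaP Z := fun p hp U hU => by
  obtain ⟨e, e1, e2, e3⟩ := h p hp ((g ⁻¹' ·) '' U) ⟨by
    rintro _ ⟨u, hu, rfl⟩
    exact (hU.1 u hu).preimage hg, by
    rintro ⟨u, hu, e⟩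
    refine hU.2.1 (eq_univ_of_forall (s := u) (hs.forall.2 fun x => e.ge (mem_univ x)) ▸ hu),
    fun F hF => by
      obtain ⟨u, h1, h2⟩ := hU.2.2 _ (hF.image g)
      exact ⟨_, ⟨u, h1, rfl⟩, image_subset_iff.1 h2⟩⟩
  choose u u1 u2 using e2
  refine ⟨u, fun a b e => e1 (by rw [← u2, ← u2, e]), u1, hs.forall.2 fun x => ?_⟩
  simpa only [← u2, mem_preimage] using e3 x

open Cardinal in
theorem cantor_emb : IsClosedEmbedding (cantorFunction (1 / 3)) := by
  refine Continuous.isClosedEmbedding ?_ (cantorFunction_injective (by norm_num) (by norm_num))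
  refine continuous_tsum (u := fun n => (1 / 3 : ℝ) ^ n) (fun n => ?_)
    (summable_geometric_of_lt_one (by norm_num) (by norm_num)) fun n f => ?_
  · exact (continuous_of_discreteTopology (f := fun b : Bool => cond b ((1 / 3 : ℝ) ^ n) 0)).comp
      (continuous_apply n)
  · cases h : f n <;> simp [h]

theorem reduce [CompletelyRegularSpace X] (h : AllGammaP X) (hn : ¬ Gamma X) :
    ∃ φ : X → ℝ, Continuous φ ∧ ¬ Gamma (range φ) := by
  classical
  simp only [Gamma, not_forall] at hn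
  obtain ⟨U, hU, hn⟩ := hn
  obtain ⟨e, -, e2, e3⟩ := h (hyperfilter ℕ) hyperfilter_le_cofinite
    {v | IsClopen v ∧ ∃ u ∈ U, v ⊆ u} ⟨fun v hv => hv.1.2, fun ⟨_, u, h1, h2⟩ =>
      hU.2.1 (univ_subset_iff.1 h2 ▸ h1), fun F hF => by
      obtain ⟨u, h1, h2⟩ := hU.2.2 F hF
      have : ∀ x ∈ F, ∃ v, IsClopen v ∧ x ∈ v ∧ v ⊆ u := fun x hx => by
        obtain ⟨f, f1, f2, f3⟩ := CompletelyRegularSpace.completely_regular x uᶜ
          (hU.1 u h1).isClosed_compl fun h3 => h3 (h2 hx)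
        have f4 : Continuous fun y => (f y : ℝ) := continuous_subtype_val.comp f1
        obtain ⟨r, r1, r2⟩ := (smz_real h f4).gap zero_lt_one
        refine ⟨{y | (f y : ℝ) < r}, ⟨?_, isOpen_lt f4 continuous_const⟩, by simpa [f2] using r1.1,
          fun y hy => by_contra fun h3 => ?_⟩
        · convert isClosed_le f4 (continuous_const (y := r)) using 3 with y
          exact ⟨le_of_lt, fun h3 => h3.lt_of_ne fun h4 => r2 ⟨y, h4⟩⟩
        · rw [mem_ofPred_eq, f3 h3] at hy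
          exact hy.not_gt r1.2
      choose! v v1 v2 v3 using this
      exact ⟨⋃ x ∈ F, v x, ⟨hF.isClopen_biUnion v1, u, h1, iUnion₂_subset v3⟩,
        fun x hx => mem_biUnion hx (v2 x hx)⟩⟩
  choose e2 u u1 u2 using e2
  let φ : X → ℝ := fun x => Cardinal.cantorFunction (1 / 3) fun n => decide (x ∈ e n)
  have φc : Continuous φ := cantor_emb.continuous.comp (continuous_pi fun n =>
    (continuous_boolIndicator_iff_isClopen _).2 (e2 n))
  choose O O1 O2 using fun n => cantor_emb.isInducing.isOpen_iff.1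
    ((isOpen_discrete {true}).preimage (continuous_apply (A := fun _ : ℕ => Bool) n))
  have key : ∀ x n, φ x ∈ O n ↔ x ∈ e n := fun x n => by
    simpa [φ] using Set.ext_iff.1 (O2 n) fun n => decide (x ∈ e n)
  refine ⟨φ, φc, fun hG => hn ?_⟩
  obtain ⟨V, h1, h2, h3⟩ := hG (range fun n => (↑) ⁻¹' O n) ⟨by
    rintro _ ⟨n, rfl⟩
    exact (O1 n).preimage continuous_subtype_val, by
    rintro ⟨n, hn⟩
    exact hU.2.1 (eq_univ_of_forall (s := u n) (fun x => u2 n ((key x n).1
      (hn.ge (mem_univ ⟨_, x, rfl⟩)))) ▸ u1 n), fun F hF => by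
    choose x hx using fun a : range φ => a.2
    obtain ⟨n, hn⟩ := ((eventually_all_finite hF).2 fun a _ => e3 (x a)).exists
    exact ⟨_, ⟨n, rfl⟩, fun a ha => by
      rw [mem_preimage, ← hx]
      exact (key _ n).2 (hn a ha)⟩⟩
  choose! n hn using fun w (hw : w ∈ V) => h1 hw
  refine gamma_sub hU.2.1 h2 (fun w => u (n w)) (fun w _ => u1 _) fun x =>
    (h3 ⟨_, x, rfl⟩).subset fun w hw => ⟨hw.1, fun h4 => hw.2 (u2 _ ((key x _).1 ?_))⟩
  rw [← hn w hw.1] at h4
  exact h4

end Pool.Agent.MP_e258b5_gt.Z
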