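import Pool.Agent.MP_e258b5_gt.Z.Core

/-! Continuous images have strong measure zero. -/

open Set Filter Topology Metric MeasureTheory

namespace Pool.Agent.MP_e258b5_gt.Z

variable {X : Type} [TopologicalSpace X]

theorem smz_of (h : AllGammaP X) {Y γ : Type} [PseudoMetricSpace Y] (ψ : X → Y)
    (H : ∀ δ : ℕ → ℝ, (∀ i, 0 < δ i) → ∃ (A : ℕ → Finset γ) (π : ℕ → X → γ),
      (∀ i l, i ≤ l → ∀ x y, π l x = π l y → π i x = π i y) ∧
      (∀ F : Set X, F.Finite → ∃ᶠ i in atTop, ∀ x ∈ F,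
        ∃ S ⊆ A i, S.card ≤ 2 ∧ ∀ᶠ y in 𝓝 x, π i y ∈ S) ∧
      ∀ i x y, π i x ∈ A i → π i x = π i y → dist (ψ x) (ψ y) ≤ δ i) (k : ℕ) :
    SMZ {z : Fin k → Y | ∀ l, z l ∈ range ψ} := by
  intro ε hε
  have ex : ∀ i b : ℕ, ∃ δ > 0, ∀ r < b, δ ≤ ε (Nat.pair i r) := fun i b => by
    induction b with
    | zero => exact ⟨1, one_pos, by simp⟩
    | succ b ih =>
      obtain ⟨δ, h1, h2⟩ := ih
      refine ⟨min δ (ε (Nat.pair i b)), lt_min h1 (hε _), fun r hr => ?_⟩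
      rcases Nat.lt_succ_iff_lt_or_eq.1 hr with h3 | rfl
      exacts [(min_le_left _ _).trans (h2 r h3), min_le_right _ _]
  choose δ d1 d2 using fun i => ex i ((2 ^ i) ^ (k + 1) * (2 ^ i) ^ (k + 1))
  obtain ⟨A, π, h1, h2, h3⟩ := H δ d1
  obtain ⟨T, t1, t2, t3⟩ := core h k A π h1 h2
  refine ⟨fun n => {w | ∃ z : Fin k → X, w = (fun l => ψ (z l)) ∧
    ∃ hz : (fun l => π n.unpair.1 (z l)) ∈ T n.unpair.1,
      ((T n.unpair.1).equivFin ⟨_, hz⟩ : ℕ) = n.unpair.2}, ?_, fun w hw => ?_⟩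
  · rintro n _ ⟨z, rfl, hz, e1⟩ _ ⟨z', rfl, hz', e2⟩
    have e3 := Subtype.ext_iff.1 ((T n.unpair.1).equivFin.injective (Fin.ext (e1.trans e2.symm)))
    have e4 := d2 n.unpair.1 n.unpair.2 (e1 ▸ (Fin.is_lt _).trans_le (t1 _))
    rw [Nat.pair_unpair] at e4
    exact (dist_pi_le_iff (hε n).le).2 fun l =>
      (h3 _ _ _ (t2 _ _ hz l) (congrFun e3 l)).trans e4
  · choose z hz using hw
    obtain ⟨i, hi⟩ := t3 z
    refine mem_iUnion.2 ⟨Nat.pair i ((T i).equivFin ⟨_, hi⟩), z, funext fun l => (hz l).symm, ?_⟩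
    rw [Nat.unpair_pair]
    exact ⟨hi, rfl⟩

theorem SMZ.one {Y : Type} [PseudoMetricSpace Y] {A : Set Y}
    (h : SMZ {z : Fin 1 → Y | ∀ l, z l ∈ A}) : SMZ A := fun ε hε => by
  obtain ⟨B, h1, h2⟩ := h ε hε
  refine ⟨fun n => (· 0) '' B n, ?_, fun a ha => ?_⟩
  · rintro n _ ⟨a, ha, rfl⟩ _ ⟨b, hb, rfl⟩
    exact (dist_le_pi_dist a b 0).trans (h1 n a ha b hb)
  · obtain ⟨n, hn⟩ := mem_iUnion.1 (h2 (a := fun _ => a) fun _ => ha)
    exact mem_iUnion.2 ⟨n, _, hn, rfl⟩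

theorem smz_real (h : AllGammaP X) {φ : X → ℝ} (hφ : Continuous φ) : SMZ (range φ) := by
  refine (smz_of h (γ := ℤ) φ (fun δ hδ => ?_) 1).one
  let q : ℕ → ℕ := fun i => ∏ l ∈ Finset.range (i + 1), ⌈1 / δ l⌉₊
  have q0 : ∀ i, 0 < q i := fun i => Finset.prod_pos fun l _ => Nat.ceil_pos.2 (by
    have := hδ l
    positivity)
  have q1 : ∀ i, (1 : ℝ) ≤ q i := fun i => by exact_mod_cast q0 i
  refine ⟨fun i => Finset.Icc (-(i * q i : ℤ)) (i * q i), fun i x => ⌊q i * φ x⌋,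
    fun i l hil x y e => ?_, fun F hF => ((eventually_all_finite hF).2 fun x _ => ?_).frequently,
    fun i x y _ e => ?_⟩
  · obtain ⟨m, hm⟩ : q i ∣ q l :=
      Finset.prod_dvd_prod_of_subset _ _ _ (Finset.range_mono (by omega))
    have m0 : (m : ℝ) ≠ 0 := by
      rintro h0
      have := q0 l
      rw [hm, Nat.cast_eq_zero.1 h0] at this
      simp at this
    have e1 : ∀ s : ℝ, q i * s = q l * s / m := fun s => by
      rw [hm]
      push_cast
      field_simp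
    beta_reduce at e ⊢
    rw [e1, e1, Int.floor_div_natCast, Int.floor_div_natCast, e]
  · filter_upwards [eventually_ge_atTop (⌈|φ x|⌉₊ + 2)] with i hi
    have h1 : |φ x| + 2 ≤ i := by
      have : ((⌈|φ x|⌉₊ + 2 : ℕ) : ℝ) ≤ i := Nat.cast_le.2 hi
      push_cast at this
      linarith [Nat.le_ceil |φ x|]
    have h2 := Int.floor_le (q i * φ x)
    have h3 := Int.lt_floor_add_one (q i * φ x)
    have h4 : ((-(i * q i : ℤ) : ℤ) : ℝ) ≤ (⌊q i * φ x⌋ - 1 : ℤ) := by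
      push_cast
      nlinarith [q1 i, neg_abs_le (φ x)]
    have h5 : ((⌊q i * φ x⌋ : ℤ) : ℝ) ≤ (i * q i : ℤ) := by
      push_cast
      nlinarith [q1 i, le_abs_self (φ x)]
    rw [Int.cast_le] at h4 h5
    refine ⟨{⌊q i * φ x⌋ - 1, ⌊q i * φ x⌋}, fun a ha => ?_, Finset.card_le_two, ?_⟩
    · simp only [Finset.mem_insert, Finset.mem_singleton, Finset.mem_Icc] at ha ⊢
      omega
    have hc : Continuous fun y => (q i : ℝ) * φ y := by fun_prop
    filter_upwards [hc.continuousAt.eventually (Ioo_mem_nhds (a := (⌊q i * φ x⌋ : ℝ) - 1)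
      (by linarith) h3)] with y hy
    have h6 : ⌊q i * φ x⌋ - 1 ≤ ⌊q i * φ y⌋ := Int.le_floor.2 (by push_cast; exact hy.1.le)
    have h7 : ⌊q i * φ y⌋ < ⌊q i * φ x⌋ + 1 := Int.floor_lt.2 (by push_cast; exact hy.2)
    simp only [Finset.mem_insert, Finset.mem_singleton]
    omega
  · have h1 := Int.abs_sub_lt_one_of_floor_eq_floor e
    have h2 : 1 / δ i ≤ q i := (Nat.le_ceil _).trans (Nat.cast_le.2 (Nat.le_of_dvd (q0 i)
      (Finset.dvd_prod_of_mem _ (Finset.self_mem_range_succ i))))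
    rw [← mul_sub, abs_mul, abs_of_pos (by linarith [q1 i])] at h1
    rw [div_le_iff₀ (hδ i)] at h2
    rw [Real.dist_eq]
    by_contra h3
    nlinarith [q1 i, not_le.1 h3]

theorem SMZ.gap {A : Set ℝ} (h : SMZ A) {a b : ℝ} (hab : a < b) : ∃ r ∈ Ioo a b, r ∉ A := by
  by_contra hc
  push Not at hc
  obtain ⟨B, h1, h2⟩ := h (fun n => (b - a) / 2 / 2 / 2 ^ n) fun n => by
    have := sub_pos.2 hab
    positivity
  have h3 : volume (Ioo a b) ≤ ∑' n : ℕ, ENNReal.ofReal ((b - a) / 2 / 2 / 2 ^ n) :=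
    (measure_mono fun r hr => h2 (hc r hr)).trans ((measure_iUnion_le _).trans
      (ENNReal.tsum_le_tsum fun n => (Real.volume_le_diam _).trans
        (ediam_le fun x hx y hy => by
          rw [edist_dist]
          exact ENNReal.ofReal_le_ofReal (h1 n x hx y hy))))
  rw [← ENNReal.ofReal_tsum_of_nonneg (fun n => by
    have := sub_pos.2 hab
    positivity) (summable_geometric_two' _), tsum_geometric_two', Real.volume_Ioo,
    ENNReal.ofReal_le_ofReal_iff (by linarith)] at h3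
  linarith

theorem schB_of {Y : Type} [PseudoMetricSpace Y] [SigmaCompactSpace Y] (A : Set Y) : SchB A := by
  intro δ hδ
  choose N _ n1 n2 using fun i => finite_cover_balls_of_compact (isCompact_compactCovering Y i)
    (hδ i)
  refine ⟨N, n1, fun F _ hF => ?_⟩
  obtain ⟨i, hi⟩ := ((eventually_all_finite hF).2 fun y _ =>
    show ∀ᶠ i in atTop, y ∈ compactCovering Y i from
      let ⟨m, hm⟩ := exists_mem_compactCovering y
      (eventually_ge_atTop m).mono fun i hi => compactCovering_subset Y hi hm).exists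
  exact ⟨i, fun y hy => n2 i (hi y hy)⟩

theorem smz (h : AllGammaP X) {Y : Type} [PseudoMetricSpace Y] {ψ : X → Y} (hψ : Continuous ψ)
    (hb : SchB (range ψ)) (k : ℕ) : SMZ {z : Fin k → Y | ∀ l, z l ∈ range ψ} := by
  classical
  refine smz_of h (γ := Set (ℕ × Y)) ψ (fun δ hδ => ?_) k
  choose M m1 m2 using fun m => hb (fun i => δ (Nat.pair m i) / 4) fun i => by
    linarith [hδ (Nat.pair m i)]
  obtain ⟨N, n1, n2⟩ : ∃ N : ℕ → Set Y, (∀ i, (N i).Finite) ∧ ∀ F : Set X, F.Finite →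
      ∃ᶠ i in atTop, ψ '' F ⊆ ⋃ y ∈ N i, ball y (δ i / 4) := by
    refine ⟨fun n => M n.unpair.1 n.unpair.2, fun n => m1 _ _, fun F hF =>
      frequently_atTop.2 fun m => ?_⟩
    obtain ⟨i, hi⟩ := m2 m _ (image_subset_range ψ F) (hF.image ψ)
    exact ⟨Nat.pair m i, Nat.left_le_pair m i, by simpa only [Nat.unpair_pair] using hi⟩
  choose r r1 r2 using fun i (y : Y) => (smz_real h (hψ.dist (continuous_const (y := y)))).gap
    (show δ i / 4 < δ i / 2 by linarith [hδ i])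
  have fin : ∀ i, {a : ℕ × Y | a.1 ≤ i ∧ a.2 ∈ N a.1}.Finite := fun i =>
    ((finite_le_nat i).biUnion fun l _ => (finite_singleton l).prod (n1 l)).subset
      fun a ha => mem_biUnion ha.1 ⟨rfl, ha.2⟩
  refine ⟨fun i => (fin i).finite_subsets.toFinset.filter fun s => ∃ y, (i, y) ∈ s,
    fun i x => {a | (a.1 ≤ i ∧ a.2 ∈ N a.1) ∧ dist (ψ x) a.2 < r a.1 a.2},
    fun i l hil x y e => Set.ext fun a => and_congr_right fun ha => ?_,
    fun F hF => (n2 F hF).mono fun i hi x hx => ?_, fun i x y hx e => ?_⟩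
  · simpa [ha.1.trans hil, ha.2] using Set.ext_iff.1 e a
  · obtain ⟨y, y1, y2⟩ := mem_iUnion₂.1 (hi ⟨x, hx, rfl⟩)
    refine ⟨{{a | (a.1 ≤ i ∧ a.2 ∈ N a.1) ∧ dist (ψ x) a.2 < r a.1 a.2}}, ?_, by simp, ?_⟩
    · rw [Finset.singleton_subset_iff, Finset.mem_filter, Finite.mem_toFinset]
      exact ⟨fun a ha => ha.1, y, ⟨le_rfl, y1⟩, (mem_ball.1 y2).trans (r1 i y).1⟩
    have : ∀ᶠ w in 𝓝 x, ∀ a ∈ {a : ℕ × Y | a.1 ≤ i ∧ a.2 ∈ N a.1},
        dist (ψ w) a.2 < r a.1 a.2 ↔ dist (ψ x) a.2 < r a.1 a.2 := by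
      refine (eventually_all_finite (fin i)).2 fun a _ => ?_
      have hc := (hψ.dist (continuous_const (y := a.2))).continuousAt (x := x)
      rcases lt_trichotomy (dist (ψ x) a.2) (r a.1 a.2) with h1 | h1 | h1
      · exact (hc.eventually (gt_mem_nhds h1)).mono fun w hw => iff_of_true hw h1
      · exact (r2 _ _ ⟨x, h1⟩).elim
      · exact (hc.eventually (lt_mem_nhds h1)).mono fun w hw => iff_of_false hw.not_gt h1.not_gt
    exact this.mono fun w hw => Finset.mem_singleton.2 (Set.ext fun a => and_congr_right (hw a))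
  · obtain ⟨c, hc⟩ := (Finset.mem_filter.1 hx).2
    have h1 : dist (ψ x) c < r i c := hc.2
    have h2 : dist (ψ y) c < r i c := (e.le hc).2
    linarith [dist_triangle_right (ψ x) (ψ y) c, (r1 i c).2]

end Pool.Agent.MP_e258b5_gt.Z
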